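import Mathlib
import Pool.Agent.Y706.BI.Res
import Pool.Agent.Y706.CH.FinM
import Pool.Agent.Y824.CH.Grn2
import Pool.Agent.Y779.CH.LUP
import Pool.Agent.Y21.CH.Cov2
import Pool.Agent.Y21.CH.Test2
import Pool.Agent.Y686.CH.Lln2
import Pool.Agent.Y167.CH.Col2
import Pool.Agent.Y708.CH.Jac
import Pool.Agent.Y302.CH.Ldx
import Pool.Agent.Y302.CH.Glob2
import Pool.Agent.Y86.CH.Loc
import Pool.Agent.Y362.CH.PD
import Pool.Agent.Y968.CH.Deg
import Pool.Agent.Y784.CH.HB
import Pool.Agent.Y195.CH.AFC
import Pool.Agent.Y195.CH.CRT
import Pool.Agent.Y195.CH.NRM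
import Pool.Agent.Y555.CH.Ext
import Pool.Agent.Y547.CH.Iso
import Pool.Agent.Y676.CH.Cnj

/-!
# Strong uniform boundedness for rational maps with a critical point of large canonical height,
for quadratic rational maps and for bicritical maps
-/

namespace Pool.Agent.Results.MP_9b502d_nt.LargeCriticalHeight

open Polynomial

universe u v

/-- The self-map of the projective line `K ∪ {∞}`, where `none` is `∞`, given by the rational
function `p / q`, where `p` and `q` are coprime and `d` is the larger of their degrees: it sends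
`x` to `p(x) / q(x)`, or to `∞` when `q(x) = 0`, and it sends `∞` to the quotient of the
coefficients of degree `d`, or to `∞` when that of `q` is zero. -/
noncomputable def mapP1 {K : Type*} [Field K] (p q : K[X]) (d : ℕ) : Option K → Option K
  | some x => by classical exact if q.eval x = 0 then none else some (p.eval x / q.eval x)
  | none => by classical exact if q.coeff d = 0 then none else some (p.coeff d / q.coeff d)

/-- With `φ(x) = (a x + b) / (c x + e)`, the map `p / q` of degree `d` satisfies
`φ ∘ (p / q) = (u / w) ∘ φ` for some `a, b, c, e` in `K` with `a e ≠ b c` and some polynomials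
`u, w` of degree at most `d`, not both zero, with coefficients algebraic over `k`; the equation is
written with denominators cleared. -/
def IsotrivialOver (k : Type*) {K : Type*} [Field k] [Field K] [Algebra k K] (p q : K[X])
    (d : ℕ) : Prop :=
  ∃ a b c e : K, a * e - b * c ≠ 0 ∧ ∃ u w : K[X], (u ≠ 0 ∨ w ≠ 0) ∧
    u.natDegree ≤ d ∧ w.natDegree ≤ d ∧ (∀ n, IsAlgebraic k (u.coeff n)) ∧
    (∀ n, IsAlgebraic k (w.coeff n)) ∧
    (C a * p + C b * q) * ∑ i ∈ Finset.range (d + 1),
      C (w.coeff i) * (C a * X + C b) ^ i * (C c * X + C e) ^ (d - i) =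
    (C c * p + C e * q) * ∑ i ∈ Finset.range (d + 1),
      C (u.coeff i) * (C a * X + C b) ^ i * (C c * X + C e) ^ (d - i)

/-- The map `p / q` of degree `d` is bicritical over the field `M`: for two different points
`(a₁ : a₂)` and `(b₁ : b₂)` of the projective line, `p` and `q` are linear combinations of
`(a₂ X - a₁) ^ d` and `(b₂ X - b₁) ^ d`. -/
def Bicritical {M : Type*} [Field M] (p q : M[X]) (d : ℕ) : Prop :=
  ∃ a₁ a₂ b₁ b₂ : M, a₁ * b₂ - a₂ * b₁ ≠ 0 ∧ ∃ u₁ u₂ v₁ v₂ : M,
    p = C u₁ * (C a₂ * X - C a₁) ^ d + C v₁ * (C b₂ * X - C b₁) ^ d ∧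
    q = C u₂ * (C a₂ * X - C a₁) ^ d + C v₂ * (C b₂ * X - C b₁) ^ d

/-- The height of a point of the projective line `M ∪ {∞}` over a function field `M` of one
variable over `k`: the degree of the field extension `M / k(x)` if `x` is transcendental over `k`.
It is zero for `∞` and for `x` algebraic over `k` (as `Module.finrank` is zero for an extension of
infinite degree). -/
noncomputable def height (k : Type*) {M : Type*} [Field k] [Field M] [Algebra k M] :
    Option M → ℕ
  | some x => Module.finrank (IntermediateField.adjoin k {x}) M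
  | none => 0

/-- The canonical height of the point `c` for the map `f = p / q` of degree `d`: the limes superior
(in fact the limit) of `height (f^m (c)) / d^m`. -/
noncomputable def canonicalHeight (k : Type*) {M : Type*} [Field k] [Field M] [Algebra k M]
    (p q : M[X]) (d : ℕ) (c : Option M) : ENNReal :=
  Filter.limsup (fun m : ℕ => (height k ((mapP1 p q d)^[m] c) : ENNReal) / (d : ENNReal) ^ m)
    Filter.atTop

/-- The point `c` is a critical point of the map `p / q` of degree `d` (in characteristic zero):
a zero of `p' q - p q'`, or `∞` if `p' q - p q'` has degree less than `2 d - 2`. -/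
def IsCritical {M : Type*} [Field M] (p q : M[X]) (d : ℕ) : Option M → Prop
  | some x => (derivative p * q - p * derivative q).eval x = 0
  | none => (derivative p * q - p * derivative q).coeff (2 * d - 2) = 0

/-- The height of the pair `u, w` of polynomials of degree at most `d`: the largest height of a
coefficient. -/
noncomputable def mapHeight (k : Type*) {M : Type*} [Field k] [Field M] [Algebra k M]
    (u w : M[X]) (d : ℕ) : ℕ :=
  (Finset.range (d + 1)).sup fun i =>
    max (height k (some (u.coeff i))) (height k (some (w.coeff i)))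

/-- The map `u / w` of degree `d` is the conjugate `φ ∘ (p / q) ∘ φ⁻¹` of the map `p / q` of
degree `d` by `φ(x) = (a x + b) / (c x + e)` for some `a, b, c, e` in `M` with `a e ≠ b c`; the
equation `(u / w) ∘ φ = φ ∘ (p / q)` is written with denominators cleared. -/
def Conjugate {M : Type*} [Field M] (p q u w : M[X]) (d : ℕ) : Prop :=
  ∃ a b c e : M, a * e - b * c ≠ 0 ∧ ∃ s : M, s ≠ 0 ∧
    ∑ i ∈ Finset.range (d + 1),
      C (u.coeff i) * (C a * X + C b) ^ i * (C c * X + C e) ^ (d - i) =
        C s * (C a * p + C b * q) ∧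
    ∑ i ∈ Finset.range (d + 1),
      C (w.coeff i) * (C a * X + C b) ^ i * (C c * X + C e) ^ (d - i) =
        C s * (C c * p + C e * q)

/-- The map `p / q` of degree `d` over `L` has large critical height: over some extension `M` of
`L` of degree at most `B` it is conjugate to a map `u / w` of degree `d`, with all critical points
in the projective line over `M`, which has a critical point `c` such that
`0 < H ≤ B * ĥ(c)`, where `H` is the largest height of a coefficient of `u` or `w` and `ĥ(c)` is
the canonical height of `c` for the map `u / w` (all heights over `M`). -/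
def HasLargeCriticalHeight (k : Type v) {L : Type u} [Field k] [Field L] [Algebra k L] (p q : L[X])
    (d B : ℕ) : Prop :=
  ∃ (M : Type u) (_ : Field M) (_ : Algebra k M) (_ : Algebra L M), IsScalarTower k L M ∧
    FiniteDimensional L M ∧ Module.finrank L M ≤ B ∧
    ∃ u w : M[X], IsCoprime u w ∧ max u.natDegree w.natDegree = d ∧
      Conjugate (p.map (algebraMap L M)) (q.map (algebraMap L M)) u w d ∧
      (derivative u * w - u * derivative w).Splits ∧
      ∃ c : Option M, IsCritical u w d c ∧ 0 < mapHeight k u w d ∧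
        (mapHeight k u w d : ENNReal) ≤ B * canonicalHeight k u w d c

lemma transfer {A B : Type*} (f : A → A) (g : B → B) (ψ : A → B) (hinj : Function.Injective ψ)
    (h : ∀ z, ψ (f z) = g (ψ z)) :
    {z | (Set.range fun m : ℕ => f^[m] z).Finite}.encard ≤
      {z | (Set.range fun m : ℕ => g^[m] z).Finite}.encard := by
  refine Set.encard_le_encard_of_injOn (f := ψ) ?_ hinj.injOn
  intro z hz
  have h1 : ∀ m : ℕ, g^[m] (ψ z) = ψ (f^[m] z) := by
    intro m
    induction m with
    | zero => rfl
    | succ m ih => rw [Function.iterate_succ_apply', Function.iterate_succ_apply', ih, h]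
  have h2 : (Set.range fun m : ℕ => g^[m] (ψ z)) = ψ '' (Set.range fun m : ℕ => f^[m] z) := by
    ext y
    constructor
    · rintro ⟨m, rfl⟩
      exact ⟨f^[m] z, ⟨m, rfl⟩, (h1 m).symm⟩
    · rintro ⟨_, ⟨m, rfl⟩, rfl⟩
      exact ⟨m, h1 m⟩
  show (Set.range fun m : ℕ => g^[m] (ψ z)).Finite
  rw [h2]
  exact Set.Finite.image _ hz

/-- **Strong uniform boundedness for maps of large critical height.** There is a function `N` such
that the following holds for all `n`, `B` and all `d ≥ 2`, every field `k` of characteristic zero,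
every `t` transcendental over `k` and every field `L` of degree at most `n` over `k(t)`. Let
`p / q` be a rational map of degree `d` over `L`. Suppose that
* `p / q` has large critical height (`HasLargeCriticalHeight k p q d B`), or
* `p / q` is not isotrivial, and `d = 2` or `p / q` is bicritical over the algebraic closure of
  `L`.
Then `p / q` has at most `N(n, d, B)` preperiodic points in the projective line over `L`. -/
theorem result : ∃ N : ℕ → ℕ → ℕ → ℕ, ∀ (k : Type v) (L : Type u) [Field k] [CharZero k]
    [Field L] [Algebra k L] (t : L), Transcendental k t →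
    FiniteDimensional (IntermediateField.adjoin k {t}) L →
    ∀ (n d B : ℕ), Module.finrank (IntermediateField.adjoin k {t}) L ≤ n → 2 ≤ d →
    ∀ p q : L[X], IsCoprime p q → max p.natDegree q.natDegree = d →
    (HasLargeCriticalHeight k p q d B ∨ ¬ IsotrivialOver k p q d ∧ (d = 2 ∨
      Bicritical (p.map (algebraMap L (AlgebraicClosure L)))
        (q.map (algebraMap L (AlgebraicClosure L))) d)) →
    {z : Option L | (Set.range fun m : ℕ => (mapP1 p q d)^[m] z).Finite}.encard ≤
      ((N n d B : ℕ) : ℕ∞) := by
  have hGRN : Pool.Agent.Y706.CH.S_GRN2.{u} := Pool.Agent.Y824.CH.t_GRN2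
  have hLUP : Pool.Agent.Y706.CH.S_LUP.{u} := Pool.Agent.Y779.CH.t_LUP hGRN
  have hCOL : Pool.Agent.Y706.CH.S_COL2.{u} := Pool.Agent.Y167.CH.t_COL2 hGRN hLUP
    (Pool.Agent.Y21.CH.t_COV2 hGRN) Pool.Agent.Y686.CH.t_LLN2 Pool.Agent.Y914.BI.t_TREE
    (Pool.Agent.Y21.CH.t_TEST2 hGRN)
  have hLOC : Pool.Agent.Y706.CH.S_LOC2.{u, u, u} := Pool.Agent.Y86.CH.t_LOC2 hGRN hLUP hCOL
    (Pool.Agent.Y708.CH.t_JAC hGRN) (Pool.Agent.Y302.CH.LDX.t_LDX hGRN)
  have hPD : Pool.Agent.Y706.CH.S_PD.{u, u} := Pool.Agent.Y362.CH.t_PD
  have h1 : ∀ n d B : ℕ, ∃ N : ℕ, 2 ≤ d → _ := fun n d B => by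
    by_cases hd : 2 ≤ d
    · obtain ⟨N, hN⟩ := Pool.Agent.Y706.CH.finM_aux.{u, v} hLOC Pool.Agent.Y302.CH.t_GLOB2 hPD
        Pool.Agent.Y179.BI.t_GEN Pool.Agent.Y784.CH.t_HB Pool.Agent.Y686.BI.t_AFF
        Pool.Agent.Y759.BI.t_CJC Pool.Agent.Y195.CH.t_AFC Pool.Agent.Y195.CH.t_AFA
        Pool.Agent.Y195.CH.t_NRM Pool.Agent.Y195.CH.t_FDA Pool.Agent.Y195.CH.t_HTA
        Pool.Agent.Y968.CH.t_HT Pool.Agent.Y968.CH.t_HT Pool.Agent.Y968.CH.t_KF
        Pool.Agent.Y195.CH.t_PT Pool.Agent.Y195.CH.t_CRT Pool.Agent.Y555.CH.t_HTE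
        Pool.Agent.Y555.CH.t_LSUP Pool.Agent.Y555.CH.t_P1M (Pool.Agent.Y547.CH.t_ISO hPD) d (n * B) B hd
      exact ⟨N, fun _ => hN⟩
    · exact ⟨0, fun h => absurd h hd⟩
  choose N₁ hN₁ using h1
  obtain ⟨N₂, hN₂⟩ := Pool.Agent.Y706.BI.Res.result.{u, v}
  refine ⟨fun n d B => N₁ n d B + N₂ n d, ?_⟩
  intro k L _ _ _ _ t ht hfd n d B hn hd p q hco hmax hcase
  have e : ∀ {K : Type u} [Field K] (p q : K[X]), mapP1 p q d =
      Pool.Agent.W277.UH.ratP1 p q d := by
    intro K _ p q
    funext z
    cases z <;> rfl
  rcases hcase with ⟨M, i1, i2, i3, i4, i5, hfr, u, w, huw, humax, hcj, hsp, c, hc, hpos, hlim⟩ |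
    ⟨hiso, hcase⟩
  · have cM : CharZero M := charZero_of_injective_algebraMap (algebraMap k M).injective
    have hinf : Infinite M := inferInstance
    have hinj : Function.Injective (algebraMap L M) := (algebraMap L M).injective
    have h2 : ∀ z : Option M, height k z = Pool.Agent.Y706.CH.hgt k z := by
      intro z
      cases z <;> rfl
    -- the variable in `M`
    have htM : Transcendental k (algebraMap L M t) := by
      intro h
      exact ht ((isAlgebraic_algebraMap_iff hinj).mp h)
    have hte : Module.finrank (IntermediateField.adjoin k {algebraMap L M t}) M =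
        Module.finrank (IntermediateField.adjoin k {t}) L * Module.finrank L M :=
      Pool.Agent.Y555.CH.t_HTE k L M t
    have htf : FiniteDimensional (IntermediateField.adjoin k {algebraMap L M t}) M := by
      apply FiniteDimensional.of_finrank_pos
      rw [hte]
      exact Nat.mul_pos Module.finrank_pos Module.finrank_pos
    have hle : Module.finrank (IntermediateField.adjoin k {algebraMap L M t}) M *
        Module.finrank M M ≤ n * B := by
      rw [hte, Module.finrank_self, mul_one]
      exact Nat.mul_le_mul hn hfr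
    have hcoef : ∀ (f : M[X]), (∀ i ≤ d, height k (some (f.coeff i)) ≤ mapHeight k u w d) →
        f.natDegree ≤ d → ∀ i, (height k (some (f.coeff i)) : ENNReal) ≤
          B * canonicalHeight k u w d c := by
      intro f hf hfd' i
      by_cases hi : i ≤ d
      · refine le_trans ?_ hlim
        exact_mod_cast hf i hi
      · rw [coeff_eq_zero_of_natDegree_lt (by omega)]
        have h0 : height k (some (0 : M)) = 0 :=
          (Pool.Agent.Y195.CH.t_HTA k M _ htM).1 0 isAlgebraic_zero
        rw [h0]
        simp
    have hmu : ∀ i ≤ d, height k (some (u.coeff i)) ≤ mapHeight k u w d := fun i hi =>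
      (le_max_left _ _).trans (Finset.le_sup (f := fun i =>
        max (height k (some (u.coeff i))) (height k (some (w.coeff i))))
          (Finset.mem_range.mpr (Nat.lt_succ_of_le hi)))
    have hmw : ∀ i ≤ d, height k (some (w.coeff i)) ≤ mapHeight k u w d := fun i hi =>
      (le_max_right _ _).trans (Finset.le_sup (f := fun i =>
        max (height k (some (u.coeff i))) (height k (some (w.coeff i))))
          (Finset.mem_range.mpr (Nat.lt_succ_of_le hi)))
    have hud : u.natDegree ≤ d := humax ▸ le_max_left _ _
    have hwd : w.natDegree ≤ d := humax ▸ le_max_right _ _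
    have hid : ∀ f : M[X], f.map (algebraMap M M) = f := by
      intro f
      rw [Algebra.algebraMap_self, Polynomial.map_id]
    have h3 := hN₁ n d B hd k M M M (algebraMap L M t) htM htf hle u w huw humax
      (by rw [hid]; exact hsp) c ⟨c, by
        rw [Algebra.algebraMap_self]
        exact Option.map_id' ▸ rfl⟩ (by
        rw [hid, hid]
        cases c <;> exact hc) (by
      intro i
      have h4 := hcoef u hmu hud i
      have h5 := hcoef w hmw hwd i
      unfold canonicalHeight at h4 h5
      rw [e] at h4 h5
      simp only [h2] at h4 h5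
      rw [hid, hid]
      exact ⟨h4, h5⟩) (by
      by_contra hcon
      push Not at hcon
      have h6 : mapHeight k u w d = 0 := by
        unfold mapHeight
        rw [← Nat.bot_eq_zero, Finset.sup_eq_bot_iff]
        intro i _
        have h7 := hcon i
        have h8 : height k (some (u.coeff i)) = 0 :=
          (Pool.Agent.Y195.CH.t_HTA k M _ htM).1 _ (not_not.mp h7.1)
        have h9 : height k (some (w.coeff i)) = 0 :=
          (Pool.Agent.Y195.CH.t_HTA k M _ htM).1 _ (not_not.mp h7.2)
        rw [h8, h9]
        rfl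
      omega)
    obtain ⟨a, b, c', e', hdet, s, hs, hc1, hc2⟩ := hcj
    obtain ⟨φ, hφ, hφ2⟩ := Pool.Agent.Y676.CH.t_CNJ M d (by omega) a b c' e' hdet s hs
      (p.map (algebraMap L M)) (q.map (algebraMap L M)) u w (by
        rw [natDegree_map_eq_of_injective hinj, natDegree_map_eq_of_injective hinj]
        exact hmax) ((Polynomial.isCoprime_map _).mpr hco) humax huw hc1 hc2
    have h10 := transfer (Pool.Agent.W277.UH.ratP1 p q d) (Pool.Agent.W277.UH.ratP1 u w d)
      (fun z => φ (Option.map (algebraMap L M) z)) (hφ.comp (Option.map_injective hinj)) (by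
        intro z
        show φ (Option.map (algebraMap L M) (Pool.Agent.W277.UH.ratP1 p q d z)) = _
        rw [← Pool.Agent.Y555.CH.t_P1M, hφ2])
    rw [e]
    refine h10.trans (h3.trans ?_)
    exact_mod_cast Nat.le_add_right _ _
  · have h3 := hN₂ k L t ht hfd n d hn hd p q hco hmax hcase hiso
    refine le_trans (le_of_eq ?_) (h3.trans ?_)
    · have e' : Pool.Agent.Y706.BI.Res.mapP1 p q d = mapP1 p q d := by
        funext z
        cases z <;> rfl
      rw [e']
    · exact_mod_cast Nat.le_add_left _ _

end Pool.Agent.Results.MP_9b502d_nt.LargeCriticalHeight
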