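import Mathlib
import Pool.Agent.Y794.DX.Pts

/-!
# Strong uniform boundedness for maps covered by endomorphisms of the additive group
-/

set_option autoImplicit false

namespace Pool.Agent.Results.MP_9b502d_nt.AdditiveQuotients

open Polynomial

universe u1 u2 u3

/-- The value of the rational function `u / v` at the point `z` of the affine line, in the
projective line `U ∪ {∞}`, where `none` is `∞`. -/
noncomputable def rat {L : Type u2} {U : Type u3} [Field L] [Field U] [Algebra L U] (u v : L[X])
    (z : U) : Option U := by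
  classical exact if aeval z v = 0 then none else some (aeval z u / aeval z v)

/-- The point `w` of the projective line over `U` has degree at most `D` over `K`: it is rational
over an extension of `K` of degree at most `D` inside `U`. -/
def DegreeAtMost (K : Type u2) {U : Type u3} [Field K] [Field U] [Algebra K U] (D : ℕ)
    (w : Option U) : Prop :=
  ∀ x, w = some x → ∃ F : IntermediateField K U, x ∈ F ∧ FiniteDimensional K F ∧
    Module.finrank K F ≤ D

/-- `E(R, d) = (9 * 2 ^ (d !) * (R + 3) * (R + d + (d !) ^ 2 + 1)) ^ 2`. -/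
def E (R d : ℕ) : ℕ :=
  (9 * 2 ^ d.factorial * (R + 3) * (R + d + d.factorial * d.factorial + 1)) ^ 2

section

variable {L : Type u2} {U : Type u3} [Field L] [Field U] [Algebra L U] {u v : L[X]}

lemma rat_some {z x : U} (h : rat u v z = some x) :
    aeval z v ≠ 0 ∧ aeval z u = x * aeval z v := by
  unfold rat at h
  split_ifs at h with h0
  refine ⟨h0, ?_⟩
  rw [Option.some.injEq] at h
  rw [← h, div_mul_cancel₀ _ h0]

lemma rat_none {z : U} (h : rat u v z = none) : aeval z v = 0 := by
  unfold rat at h
  split_ifs at h with h0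
  exact h0

lemma coprime_ne {z : U} (hco : IsCoprime u v) (h1 : aeval z u = 0) (h2 : aeval z v = 0) :
    False := by
  obtain ⟨a, b, hab⟩ := hco
  have := congrArg (aeval z) hab
  rw [map_add, map_mul, map_mul, h1, h2, mul_zero, mul_zero, add_zero, map_one] at this
  exact zero_ne_one this

/-- the polynomial `u - x v` -/
noncomputable def fib (u v : L[X]) {F : Type u3} [Field F] [Algebra L F] (x : F) : F[X] :=
  u.map (algebraMap L F) - C x * v.map (algebraMap L F)

lemma fib_ne (hco : IsCoprime u v) (hnc : 1 ≤ max u.natDegree v.natDegree) (x : U) :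
    fib u v x ≠ 0 := by
  intro h
  have hu : u.map (algebraMap L U) = C x * v.map (algebraMap L U) := sub_eq_zero.1 h
  obtain ⟨a, b, hab⟩ := hco
  have h1 := congrArg (Polynomial.map (algebraMap L U)) hab
  rw [Polynomial.map_add, Polynomial.map_mul, Polynomial.map_mul, hu, Polynomial.map_one] at h1
  have h2 : IsUnit (v.map (algebraMap L U)) := by
    apply IsUnit.of_mul_eq_one (C x * a.map (algebraMap L U) + b.map (algebraMap L U))
    rw [← h1]
    ring
  have h3 := natDegree_eq_zero_of_isUnit h2
  have h4 : (u.map (algebraMap L U)).natDegree = 0 := by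
    rw [hu]
    have := natDegree_C_mul_le x (v.map (algebraMap L U))
    omega
  rw [natDegree_map] at h3 h4
  rw [h3, h4] at hnc
  omega

lemma v_ne (hco : IsCoprime u v) (hnc : 1 ≤ max u.natDegree v.natDegree) : v ≠ 0 := by
  rintro rfl
  have h1 : IsUnit u := isCoprime_zero_right.1 hco
  have h2 := natDegree_eq_zero_of_isUnit h1
  rw [h2, natDegree_zero] at hnc
  omega

lemma fib_natDegree_le (x : U) : (fib u v x).natDegree ≤ max u.natDegree v.natDegree := by
  unfold fib
  refine (natDegree_sub_le _ _).trans (max_le_max ?_ ?_)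
  · rw [natDegree_map]
  · exact (natDegree_C_mul_le _ _).trans (by rw [natDegree_map])

lemma fib_eval (x z : U) : (fib u v x).eval z = aeval z u - x * aeval z v := by
  unfold fib
  rw [eval_sub, eval_mul, eval_C, eval_map_algebraMap, eval_map_algebraMap]

/-- the fibres of `u / v` are finite -/
lemma fibre_finite (hco : IsCoprime u v) (hnc : 1 ≤ max u.natDegree v.natDegree)
    (w : Option U) : {z : U | rat u v z = w}.Finite := by
  classical
  rcases w with _ | x
  · have hv : v.map (algebraMap L U) ≠ 0 := by
      rw [Ne, Polynomial.map_eq_zero]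
      exact v_ne hco hnc
    refine ((v.map (algebraMap L U)).roots.toFinset.finite_toSet).subset ?_
    intro z hz
    rw [Finset.mem_coe, Multiset.mem_toFinset, mem_roots hv, IsRoot.def, eval_map_algebraMap]
    exact rat_none hz
  · refine ((fib u v x).roots.toFinset.finite_toSet).subset ?_
    intro z hz
    rw [Finset.mem_coe, Multiset.mem_toFinset, mem_roots (fib_ne hco hnc x), IsRoot.def, fib_eval,
      (rat_some hz).2, sub_self]

/-- at most one point is not a value at a finite point -/
lemma compl_subsingleton [IsAlgClosed U] (hco : IsCoprime u v)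
    (hnc : 1 ≤ max u.natDegree v.natDegree) : {w : Option U | ∀ z, rat u v z ≠ w}.Subsingleton := by
  classical
  have hA : ∀ x : U, (∀ z, rat u v z ≠ some x) → (fib u v x).natDegree = 0 := by
    intro x hx
    by_contra hd
    obtain ⟨z, hz⟩ := IsAlgClosed.exists_root (fib u v x) (by
      intro h
      rw [degree_eq_natDegree (fib_ne hco hnc x)] at h
      exact hd (by exact_mod_cast h))
    rw [IsRoot.def, fib_eval] at hz
    have h1 : aeval z u = x * aeval z v := sub_eq_zero.1 hz
    by_cases h0 : aeval z v = 0
    · exact coprime_ne hco (by rw [h1, h0, mul_zero]) h0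
    · apply hx z
      unfold rat
      rw [if_neg h0, h1, mul_div_cancel_right₀ _ h0]
  have hN : (∀ z : U, rat u v z ≠ none) → v.natDegree = 0 := by
    intro hx
    by_contra hd
    obtain ⟨z, hz⟩ := IsAlgClosed.exists_root (v.map (algebraMap L U)) (by
      intro h
      rw [degree_map, degree_eq_natDegree (v_ne hco hnc)] at h
      exact hd (by exact_mod_cast h))
    rw [IsRoot.def, eval_map_algebraMap] at hz
    apply hx z
    unfold rat
    rw [if_pos hz]
  -- constants
  have hC : ∀ q : L[X], (q.map (algebraMap L U)).natDegree = q.natDegree := fun q => natDegree_map _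
  have hmix : ∀ x : U, v.natDegree = 0 → (fib u v x).natDegree = 0 → False := by
    intro x h1 h2
    have h3 : u.map (algebraMap L U) = fib u v x + C x * v.map (algebraMap L U) := by
      unfold fib
      ring
    have h4 : (u.map (algebraMap L U)).natDegree ≤ 0 := by
      rw [h3]
      refine (natDegree_add_le _ _).trans (max_le h2.le ?_)
      refine (natDegree_C_mul_le _ _).trans ?_
      rw [hC, h1]
    rw [hC] at h4
    rw [h1] at hnc
    omega
  intro w hw w' hw'
  rcases w with _ | x <;> rcases w' with _ | x'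
  · rfl
  · exact (hmix x' (hN hw) (hA x' hw')).elim
  · exact (hmix x (hN hw') (hA x hw)).elim
  · by_contra hne
    have hxx : x ≠ x' := fun h => hne (by rw [h])
    have h1 := hA x hw
    have h2 := hA x' hw'
    have h3 : C (x' - x) * v.map (algebraMap L U) = fib u v x - fib u v x' := by
      unfold fib
      rw [C_sub]
      ring
    have h4 : (C (x' - x) * v.map (algebraMap L U)).natDegree ≤ 0 := by
      rw [h3]
      exact (natDegree_sub_le _ _).trans (max_le h1.le h2.le)
    rw [natDegree_C_mul (sub_ne_zero.2 (Ne.symm hxx)), hC] at h4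
    exact hmix x (by omega) h1

end

/-- a point over a point of bounded degree has bounded degree -/
lemma degree_fibre {K : Type u2} {U : Type u3} [Field K] [Field U] [Algebra K U]
    (L : IntermediateField K U) [FiniteDimensional K L] {D D0 δ : ℕ}
    (hL : Module.finrank K L ≤ D0) (u v : L[X]) (hco : IsCoprime u v)
    (hnc : 1 ≤ max u.natDegree v.natDegree) (hδ : max u.natDegree v.natDegree ≤ δ) (hD : 1 ≤ D)
    (w : Option U) (hw : DegreeAtMost K D w) (z : U) (hz : rat u v z = w) :
    Pool.Agent.Y794.DX.DegLe K (D * D0 * δ) z := by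
  classical
  -- a field F containing L and w
  obtain ⟨F, hLF, hFf, hFd, P, hP0, hPd, hPz⟩ : ∃ F : IntermediateField K U, L ≤ F ∧
      FiniteDimensional K F ∧ Module.finrank K F ≤ D * D0 ∧ ∃ P : F[X], P ≠ 0 ∧
        P.natDegree ≤ δ ∧ aeval z P = 0 := by
    rcases w with _ | x
    · refine ⟨L, le_rfl, inferInstance, hL.trans (Nat.le_mul_of_pos_left _ hD), v,
        v_ne hco hnc, (le_max_right _ _).trans hδ, rat_none hz⟩
    · obtain ⟨F, hxF, hFf, hFd⟩ := hw x rfl
      have hle : L ≤ F ⊔ L := le_sup_right
      have hx : x ∈ F ⊔ L := (le_sup_left : F ≤ F ⊔ L) hxF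
      let ι : L →+* (F ⊔ L : IntermediateField K U) := (IntermediateField.inclusion hle).toRingHom
      have hι : ∀ a : L, ((ι a : (F ⊔ L : IntermediateField K U)) : U) = (a : U) := fun a => rfl
      refine ⟨F ⊔ L, hle, inferInstance,
        (IntermediateField.finrank_sup_le F L).trans (Nat.mul_le_mul hFd hL),
        u.map ι - C ⟨x, hx⟩ * v.map ι, ?_, ?_, ?_⟩
      · intro h
        apply fib_ne (U := U) hco hnc x
        have h2 := congrArg (Polynomial.map
          (algebraMap (F ⊔ L : IntermediateField K U) U)) h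
        rw [Polynomial.map_sub, Polynomial.map_mul, Polynomial.map_map, Polynomial.map_map,
          map_C, Polynomial.map_zero] at h2
        exact h2
      · refine (natDegree_sub_le _ _).trans (max_le ?_ ?_)
        · exact natDegree_map_le.trans ((le_max_left _ _).trans hδ)
        · exact (natDegree_C_mul_le _ _).trans
            (natDegree_map_le.trans ((le_max_right _ _).trans hδ))
      · obtain ⟨_, h2⟩ := rat_some hz
        rw [aeval_def, eval₂_sub, eval₂_mul, eval₂_C, eval₂_map, eval₂_map]
        have e1 : eval₂ ((algebraMap (F ⊔ L : IntermediateField K U) U).comp ι) z u = aeval z u :=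
          rfl
        have e2 : eval₂ ((algebraMap (F ⊔ L : IntermediateField K U) U).comp ι) z v = aeval z v :=
          rfl
        rw [e1, e2, h2]
        exact sub_self _
  have hint : IsIntegral F z := (IsAlgebraic.isIntegral ⟨P, hP0, hPz⟩)
  have hfd : FiniteDimensional F (IntermediateField.adjoin F {z}) :=
    IntermediateField.adjoin.finiteDimensional hint
  have hmin : Module.finrank F (IntermediateField.adjoin F {z}) ≤ δ := by
    rw [IntermediateField.adjoin.finrank hint]
    exact (natDegree_le_natDegree (minpoly.degree_le_of_ne_zero F z hP0 hPz)).trans hPd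
  refine ⟨(IntermediateField.adjoin F {z}).restrictScalars K,
    IntermediateField.mem_adjoin_simple_self F z, ?_, ?_⟩
  · exact (FiniteDimensional.trans K F (IntermediateField.adjoin F {z}) :)
  · haveI : Module.Free K F := Module.Free.of_divisionRing K F
    haveI : Module.Free F (IntermediateField.adjoin F {z}) :=
      Module.Free.of_divisionRing F (IntermediateField.adjoin F {z})
    have h1 : Module.finrank K ((IntermediateField.adjoin F {z}).restrictScalars K) =
        Module.finrank K F * Module.finrank F (IntermediateField.adjoin F {z}) :=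
      (Module.finrank_mul_finrank K F (IntermediateField.adjoin F {z})).symm
    rw [h1]
    exact Nat.mul_le_mul hFd hmin

/-- **Strong uniform boundedness for maps covered by endomorphisms of the additive group.**
Let `K` be a field of characteristic `p`, `θ` in `K` transcendental over a subfield `k`,
`[K : k(θ)] ≤ m`, and `U` an algebraically closed extension of `K`. Let `L` be an extension of `K`
in `U` of degree at most `D`, `φ(z) = c + θ z + g_1 z^p + ... + g_r z^(p^r)` with `c, g_i` in `L`,
`r ≥ 1`, `g_r ≠ 0`, and let `u / v` be a non-constant rational function over `L` of degree at most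
`δ`. For every self-map `f` of the projective line over `U` with `f ∘ (u / v) = (u / v) ∘ φ`, the
number of points of degree at most `D` over `K` whose orbit under `f` is finite is at most
`p ^ ((r + 1) E(r, m d) + 1) + 1`, where `d = (D^2 δ)^2 D`. -/
theorem result (p r m D δ : ℕ) (hp : p.Prime) (hr : 1 ≤ r) (hD : 1 ≤ D) (k : Type u1)
    (K : Type u2) [Field k] [CharP k p] [Field K] [Algebra k K] (θ : K) (hθ : Transcendental k θ)
    [FiniteDimensional (IntermediateField.adjoin k {θ}) K]
    (hm : Module.finrank (IntermediateField.adjoin k {θ}) K ≤ m) (U : Type u3) [Field U]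
    [Algebra K U] [IsAlgClosed U] (L : IntermediateField K U) [FiniteDimensional K L]
    (hL : Module.finrank K L ≤ D) (c : L) (g : ℕ → L) (hg : g r ≠ 0) (u v : L[X])
    (hco : IsCoprime u v) (hnc : 1 ≤ max u.natDegree v.natDegree)
    (hδ : max u.natDegree v.natDegree ≤ δ) (f : Option U → Option U)
    (hf : ∀ z : U, f (rat u v z) =
      rat u v ((c : U) + (algebraMap K U θ * z + ∑ i ∈ Finset.Icc 1 r, (g i : U) * z ^ p ^ i))) :
    {w : Option U | DegreeAtMost K D w ∧ (Set.range fun n : ℕ => f^[n] w).Finite}.Finite ∧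
    {w : Option U | DegreeAtMost K D w ∧ (Set.range fun n : ℕ => f^[n] w).Finite}.ncard ≤
      p ^ ((r + 1) * E r (m * ((D ^ 2 * δ) ^ 2 * D)) + 1) + 1 := by
  classical
  obtain ⟨φ, hφ⟩ : ∃ φ : U → U, ∀ z, φ z = (c : U) + (algebraMap K U θ * z +
      ∑ i ∈ Finset.Icc 1 r, (g i : U) * z ^ p ^ i) := ⟨_, fun z => rfl⟩
  have hfφ : ∀ z, f (rat u v z) = rat u v (φ z) := fun z => by rw [hf, hφ]
  obtain ⟨D1, hD1⟩ : ∃ D1, D1 = D * D * δ := ⟨_, rfl⟩
  obtain ⟨N, hN⟩ : ∃ N, N = Pool.Agent.Y794.DX.NN r (m * (D1 * D1 * D)).factorial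
    (m * (D1 * D1 * D)) := ⟨_, rfl⟩
  obtain ⟨h1, h2⟩ := Pool.Agent.Y794.DX.pts_bound p r m D1 D N hp hr hN k K θ hθ hm U L hL
    (c : U) g hg φ hφ
  obtain ⟨Z, hZ⟩ : ∃ Z : Set U, Z = {z : U | Pool.Agent.Y794.DX.DegLe K D1 z ∧
    (Set.range fun n : ℕ => φ^[n] z).Finite} := ⟨_, rfl⟩
  rw [← hZ] at h1 h2
  obtain ⟨S, hS⟩ : ∃ S : Set (Option U), S = {w : Option U | ∀ z, rat u v z ≠ w} := ⟨_, rfl⟩
  have hSs : S.Subsingleton := by rw [hS]; exact compl_subsingleton hco hnc
  have hiter : ∀ (n : ℕ) (z : U), f^[n] (rat u v z) = rat u v (φ^[n] z) := by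
    intro n
    induction n with
    | zero => intro z; rfl
    | succ n ih =>
      intro z
      rw [Function.iterate_succ_apply', ih, hfφ, Function.iterate_succ_apply']
  have hsub : {w : Option U | DegreeAtMost K D w ∧ (Set.range fun n : ℕ => f^[n] w).Finite} ⊆
      rat u v '' Z ∪ S := by
    rintro w ⟨hw, horb⟩
    by_cases hr' : ∃ z, rat u v z = w
    · obtain ⟨z, hz⟩ := hr'
      left
      refine ⟨z, ?_, hz⟩
      rw [hZ]
      refine ⟨?_, ?_⟩
      · rw [hD1]
        exact degree_fibre L hL u v hco hnc hδ hD w hw z hz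
      · -- the orbit of z is finite
        have h3 : (Set.range fun n : ℕ => φ^[n] z) ⊆
            ⋃ w' ∈ (Set.range fun n : ℕ => f^[n] w), {z' : U | rat u v z' = w'} := by
          rintro _ ⟨n, rfl⟩
          rw [Set.mem_iUnion₂]
          refine ⟨f^[n] w, ⟨n, rfl⟩, ?_⟩
          show rat u v (φ^[n] z) = f^[n] w
          rw [← hz, hiter]
        exact (horb.biUnion fun w' _ => fibre_finite hco hnc w').subset h3
    · right
      rw [hS]
      intro z hz
      exact hr' ⟨z, hz⟩
  have hfin : (rat u v '' Z ∪ S).Finite := (h1.image _).union hSs.finite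
  refine ⟨hfin.subset hsub, ?_⟩
  refine (Set.ncard_le_ncard hsub hfin).trans ((Set.ncard_union_le _ _).trans ?_)
  haveI : Finite S := hSs.finite.to_subtype
  have hS1 : S.ncard ≤ 1 := Set.ncard_le_one_iff_subsingleton.2 hSs
  refine Nat.add_le_add ((Set.ncard_image_le h1).trans (h2.trans (le_of_eq ?_))) hS1
  rw [← pow_add, hN, hD1]
  congr 1
  have e1 : D * D * δ * (D * D * δ) * D = (D ^ 2 * δ) ^ 2 * D := by ring
  rw [e1]
  show _ = (r + 1) * (9 * 2 ^ (m * ((D ^ 2 * δ) ^ 2 * D)).factorial * (r + 3) *
    (r + m * ((D ^ 2 * δ) ^ 2 * D) + (m * ((D ^ 2 * δ) ^ 2 * D)).factorial *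
      (m * ((D ^ 2 * δ) ^ 2 * D)).factorial + 1)) ^ 2 + 1
  unfold Pool.Agent.Y794.DX.NN
  ring

end Pool.Agent.Results.MP_9b502d_nt.AdditiveQuotients
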