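import Mathlib
import Pool.Agent.Y706.SB.Fin
import Pool.Agent.Y706.SB.MainA
import Pool.Agent.Y93.SB.Lb
import Pool.Agent.Y93.SB.Den
import Pool.Agent.Y811.SB.CH
import Pool.Agent.Y614.SB.EF
import Pool.Agent.Y153.SB.Esc
import Pool.Agent.Y614.SB.KK
import Pool.Agent.Y658.SB.LOC
import Pool.Agent.Y808.SB.Lev
import Pool.Agent.Y758.SB.Lev
import Pool.Agent.Y888.SB.C1AR
import Pool.Agent.Y758.SB.Asm
import Pool.Agent.Y93.SB.Sep
import Pool.Agent.Y93.SB.Cmp

/-!
# Strong uniform boundedness for polynomials of degree less than the characteristic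
-/

set_option autoImplicit false

namespace Pool.Agent.Results.MP_9b502d_nt.PolynomialsSmallDegreeCharP

open Polynomial

universe u v

/-- There is a function `N` such that the following holds for all `n` and `d ≥ 2`, for every prime
number `p > d`, every field `k` of characteristic `p` and every field `L` of degree at most `n`
over `k(t)`, where `t` in `L` is transcendental over `k`. Let `f` be a polynomial of degree `d` over
`L` such that no conjugate `y⁻¹ (f(y X + b) - b)` with `y, b` in `L`, `y ≠ 0`, has all its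
coefficients algebraic over `k`. Then `f` has at most `N(n, d)` preperiodic points in `L`. -/
theorem result : ∃ N : ℕ → ℕ → ℕ, ∀ (p : ℕ) (k : Type v) (L : Type u) [Field k] [CharP k p]
    [Field L] [Algebra k L] (t : L), p.Prime → Transcendental k t →
    FiniteDimensional (IntermediateField.adjoin k {t}) L →
    ∀ (n d : ℕ) (f : L[X]), Module.finrank (IntermediateField.adjoin k {t}) L ≤ n →
      2 ≤ d → d < p → f.natDegree = d →
      (¬ ∃ y b : L, y ≠ 0 ∧
        ∀ m, IsAlgebraic k ((C y⁻¹ * (f.comp (C y * X + C b) - C b)).coeff m)) →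
      {z : L | (Set.range fun m : ℕ => (fun x => f.eval x)^[m] z).Finite}.encard ≤
        (N n d : ℕ∞) := by
  have hLB : Pool.Agent.Y706.SB.S_LB.{u, u} := Pool.Agent.Y93.SB.t_LB Pool.Agent.Y93.SB.t_DEN
    Pool.Agent.Y811.SB.t_CH Pool.Agent.Y614.SB.EF.t_EF
  have hLOC : Pool.Agent.Y706.SB.S_LOC.{u} := Pool.Agent.Y658.SB.t_LOC Pool.Agent.Y153.SB.t_ESC
    Pool.Agent.Y614.SB.t_KK
  have hLEV : Pool.Agent.Y706.SB.S_LEV.{u, u} := Pool.Agent.Y808.SB.t_LEV
    Pool.Agent.Y153.SB.t_ESC hLOC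
  obtain ⟨N, hN⟩ := Pool.Agent.Y706.SB.final_of.{u, v} (Pool.Agent.Y706.SB.t_A hLB)
    (Pool.Agent.Y758.SB.t_B hLEV hLB)
    (Pool.Agent.Y758.SB.t_ASM Pool.Agent.Y888.SB.t_C1 Pool.Agent.Y888.SB.t_AR)
    Pool.Agent.Y93.SB.t_SEP Pool.Agent.Y93.SB.t_CMP
  refine ⟨N, ?_⟩
  intro p k L _ _ _ _ t hp ht hfin n d f hn hd hdp hf hiso
  exact hN p k L t hp ht hfin n d f hn hd hdp hf hiso

end Pool.Agent.Results.MP_9b502d_nt.PolynomialsSmallDegreeCharP
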